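import Mathlib
import Pool.Agent.NH19.LA.Final
import Pool.Agent.NH19.LA.AlgMain
import Pool.Agent.NH19.LA.Zip
import Pool.Agent.NH19.LA.Sim
import Pool.Agent.NH19.LA.Mach
import Pool.Agent.NH19.LA.Size
import Pool.Agent.H630R2.LA.Upper
import Pool.Agent.NH88.FY.Cost2

/-!
# Determinization of 1-limited automata with few turns inside the input is double exponential

The cost of the determinization of 1-limited automata (LAs) by deterministic 1-limited automata
(DLAs) in which the number of turns inside the input is sublinear is `2 ^ (2 ^ Θ(n ^ 2))`. Let `cost n`
be the greatest value, for the LAs of size at most `n`, of the least size of such an equivalent DLA.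

* `cost n ≤ 2 ^ (2 ^ (n ^ 2 + 4))`: the subset construction for the one-way automaton whose states are
  the pairs (table of the visited part of the tape, state) has no turns;
* `2 ^ (2 ^ (n ^ 2 / 40000000)) ≤ 2 * cost n ^ 4` if `n ≥ 4160`.

Moreover for every `n ≥ 1` there is an LA with `3 n + 4` states over an alphabet with `4 n + 2` letters,
of size at most `300 (n + 1) ^ 2`, whose own head turns only at the end-markers, such that every
equivalent DLA in which the number of turns inside the input is sublinear has a number `k` of states
with `2 ^ (2 ^ n) ≤ 2 (k + 1) ^ 4`, whatever its work alphabet is. Without the restriction on the turns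
a DLA of size `2 ^ ((size + 2) ^ 4)` is enough (starting files).

The first lower bound is for an LA with `O(m)` states over an alphabet with `7` letters, which guesses
in each segment of the input one of several `m × m` bit matrices and a list of queries about its bits,
and answers the queries one after the other. A list of matrices (a set `S`) and a list of lists of
queries (each describes a matrix, together a set `T`) make an accepted segment if and only if `S` and
`T` intersect. The argument with generic words below works for every set of words which is closed
under concatenation; here these are the sequences of accepted segments.

The second one: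
the automaton decides whether the composition of a sequence of relations on the set `V` of the
binary words of length `n`, each given by the list of its pairs, is not empty: in its first pass it
chooses and copies one pair of each relation, and in the pass `j` it compares the bits `j`.

The lower bound is an argument with generic words. A straight passage of a deterministic 1-limited
automaton through a word `x` is described by three maps: the map `d x` of the first passage, and,
for the contents which the first passage entered in the state `p` leaves, the maps `f x p` and
`g x p` of the later passages to the right and to the left. A word `w` with the full relation and a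
word `v` with a nonempty relation which minimize the images of these maps are chosen. If the number
of states is small then for some set `S` of vertices the word `x` with the relations `V × S`,
`(V \ S) × V` acts on the images of the generic words without loss, so that for `y = w v` and some
`m` the words `y` and `y (x y) ^ m` have the same straight passages, although `x` has the empty
relation. In an accepting computation on `y ^ N` with fewer than `N - 1` turns some copy of `y` is
free of turns, and it can be replaced by `y (x y) ^ m`.
-/

set_option autoImplicit false

namespace Pool.Agent.Results.MP_0036f5_lc.FewTurns

open Pool.Agent.H630R2.LA Pool.Agent.NH19.LA Pool.Agent.NH88.FY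

theorem result (strict : Prop) :
    (∀ n : ℕ, cost strict (DetTurns strict) n ≤ 2 ^ (2 ^ (n ^ 2 + 4)) ∧
      (4160 ≤ n → 2 ^ (2 ^ (n ^ 2 / 40000000)) ≤ 2 * cost strict (DetTurns strict) n ^ 4)) ∧
    ∀ n : ℕ, 1 ≤ n → ∃ (A : Type) (_ : Finite A) (M : LimAut A), Nat.card A = 4 * n + 2 ∧
      Nat.card M.Q = 3 * n + 4 ∧ M.size ≤ 300 * (n + 1) ^ 2 ∧ Sweeping strict M ∧
      (∃ M' : LimAut A, M'.Deterministic ∧ M'.language strict = M.language strict ∧
        M'.size ≤ 2 ^ ((M.size + 2) ^ 4)) ∧
      ∀ M' : LimAut A, M'.Deterministic → FewTurns strict M' →
        M'.language strict = M.language strict →
        2 ^ (2 ^ n) ≤ 2 * (Nat.card M'.Q + 1) ^ 4 := by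
  refine ⟨fun n => turns_cost strict n, fun n hn => ?_⟩
  obtain ⟨h1, _, h3, h4⟩ := size_Mn n
  exact ⟨Ltr n, inferInstance, Mn n, h3, h1, h4, sweep_Mn strict n, upper (Mn n) strict,
    fun M' hd hf hL => NH19.LA.lower zip_iff zip_F pass_laws sim alg mach strict n hn M' hd hf hL⟩

end Pool.Agent.Results.MP_0036f5_lc.FewTurns
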