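import Mathlib
import Pool.Agent.NH88.FX.Main
import Pool.Agent.NH88.FZ.Cost3

/-!
# 1-limited automata of subexponential ambiguity

For every `m ≥ 1` there is a 1-limited automaton (LA) `M` over the fixed alphabet `Ltr` with 7 letters,
with at most `12 (m + 1)` states and of size at most `2080 (m + 1)`, such that every equivalent LA with
`s` states, `l` of which can be entered by a move to the left, satisfies

* `2 ^ (2 ^ (m ^ 2)) ≤ s * 2 ^ (l * s) + 1`, hence `size ^ 2 ≥ 2 ^ (m ^ 2)`, if its ambiguity is
  subexponential: for every `c`, on all long enough words `w` it has at most `k` accepting
  computations for some `k` with `k ^ c ≤ 2 ^ |w|` (this holds for deterministic, unambiguous, finitely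
  ambiguous and polynomially ambiguous LAs);
* `2 ^ (2 ^ (m ^ 2)) ≤ (s + 1) ^ (l + 1)` if it is deterministic.

On the other hand some equivalent deterministic LA has size at most `2 ^ ((size M + 2) ^ 4)`. So let
`P` be any class of LAs which contains the deterministic ones and consists of LAs of subexponential
ambiguity, for example the unambiguous, the finitely ambiguous or the polynomially ambiguous LAs, and
let `cost n` be the greatest value, for the LAs of size at most `n`, of the least size of an equivalent
LA in `P`. Then `cost n ≤ 2 ^ ((n + 2) ^ 4)`, and `2 ^ (n ^ 2) ≤ cost n ^ 80000000` if `n ≥ 4160`.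

Proof. The input consists of segments `b (list of m × m bit matrices) (list of lists of queries) e`; the
automaton guesses in each segment a matrix (it marks its place during the first visit) and a list of
queries about the bits of the matrix, and answers the queries one after the other by going back to the
mark. Sets `S` of matrices and sets `T` of matrices, each described by a list of `m ^ 2` queries, give
words `x_S`, `y_T` such that a sequence of such words is accepted if and only if it is a sequence of
pairs `x_S y_T` with `S ∩ T` not empty.

Let `E` be the set of the pairs (table of the visited part of the tape, restricted to the states that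
can be entered by a move to the left; state) of an equivalent LA. For a sequence `x` of words `x_S`,
`y_T` let `φ x` be the `E × E` matrix of the numbers of the runs of the table automaton between useful
pairs, with the pairs at all ends of words prescribed. Different runs extend to different computations
(the pair at a boundary is determined by the computation), so the ambiguity bounds the entries of `φ`,
and `φ x = 0` if `x` occurs in no accepted word. If the ambiguity is subexponential, then the diagonal
entries of `φ` are at most `1`, and so are all entries inside a component. Some component survives all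
accepted words; in it there is an idempotent matrix `P = φ p` of minimal trace `r ≥ 1`, and for all
accepted `z` the matrix `P * φ z * P` is a permutation of the `r` diagonal places of `P`. So some
bilinear form `∑ i, ∑ j, v i * φ z i j * u j` has the value `r` for all accepted `z`. For the words
`x_S y_T` the value is `r` if `S ∩ T` is not empty and `0` otherwise, and it factors through `E`: the
rank of the matrix `[S ∩ T ≠ ∅]`, which is `2 ^ (2 ^ (m ^ 2)) - 1`, is at most `|E| = s * 2 ^ (l * s)`. For
deterministic automata the tables are partial functions, and the words `x_S` with different `S` need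
different pairs.
-/

set_option autoImplicit false

namespace Pool.Agent.Results.MP_0036f5_lc.SubexponentialAmbiguity

open Pool.Agent.H630R2.LA Pool.Agent.R620.KV Pool.Agent.NH88.FA Pool.Agent.NH88.FX
open Pool.Agent.NH88.FY (cost)

/-- There are small 1-limited automata such that every equivalent 1-limited automaton of
subexponential ambiguity has size at least `2 ^ (c n ^ 2)`; trade-off between the number `s` of the
states and the number `l` of the states that can be entered by a move to the left. -/
theorem result (strict : Prop) :
    (∀ m : ℕ, 1 ≤ m → ∃ M : LimAut Ltr, Nat.card M.Q ≤ 12 * (m + 1) ∧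
      M.size ≤ 2080 * (m + 1) ∧
      (∀ M' : LimAut Ltr, M'.language strict = M.language strict →
        ((∃ C k : ℕ, ∀ w, AccLE strict M' w (C * (w.length + 1) ^ k)) → Subexp strict M') ∧
        (Subexp strict M' →
          2 ^ (2 ^ (m ^ 2)) ≤ Nat.card M'.Q * 2 ^ ((Lft M').ncard * Nat.card M'.Q) + 1 ∧
          2 ^ (m ^ 2) ≤ M'.size ^ 2) ∧
        (M'.Deterministic → 2 ^ (2 ^ (m ^ 2)) ≤ (Nat.card M'.Q + 1) ^ ((Lft M').ncard + 1))) ∧
      ∃ M' : LimAut Ltr, M'.Deterministic ∧ (∀ w, AccLE strict M' w 1) ∧
        M'.language strict = M.language strict ∧ M'.size ≤ 2 ^ ((M.size + 2) ^ 4)) ∧
    ∀ P : (∀ A : Type, LimAut A → Prop),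
      (∀ (A : Type) (M : LimAut A), M.Deterministic → P A M) →
      (∀ (A : Type) (M : LimAut A), P A M → Subexp strict M) →
      ∀ n : ℕ, cost strict P n ≤ 2 ^ ((n + 2) ^ 4) ∧
        (4160 ≤ n → 2 ^ (n ^ 2) ≤ cost strict P n ^ 80000000) :=
  ⟨main strict, fun P h1 h2 n => NH88.FZ.class_cost strict P h1 h2 n⟩

end Pool.Agent.Results.MP_0036f5_lc.SubexponentialAmbiguity
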