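import Mathlib
import Pool.Agent.NH19.LA.Time
import Pool.Agent.NH19.LA.MnTime
import Pool.Agent.NH19.LA.Zip
import Pool.Agent.NH19.LA.Mach
import Pool.Agent.H630R2.LA.Upper
import Pool.Agent.NH88.FY.Cost

/-!
# Time and size of deterministic 1-limited automata that simulate a 1-limited automaton

The cost of the determinization of 1-limited automata (LAs) by deterministic 1-limited automata
(DLAs) that work in linear time is `2 ^ (2 ^ Θ(n ^ 2))`. Let `cost n` be the greatest value, for the LAs
of size at most `n`, of the least size of an equivalent DLA with at most `t |w|` moves on all long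
enough inputs `w`. For every `t ≥ 2`

* `cost n ≤ 2 ^ (2 ^ (n ^ 2 + 4))`: the subset construction for the one-way automaton whose states are
  the pairs (table of the visited part of the tape, state) makes `|w| + 1` moves;
* `2 ^ (2 ^ (n ^ 2 / 40000000)) < 2 * cost n ^ (2 t)` if `n ≥ 4160`.

Moreover for every `n ≥ 1` there is an LA with `3 n + 4` states over an alphabet with `4 n + 2` letters,
of size at most `300 (n + 1) ^ 2`, whose own computations on `w` have at most `(2 n + 1) (|w| + 3)`
moves, such that every equivalent DLA with `k` states which halts within `t |w|` moves on all long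
enough inputs `w` satisfies `2 ^ (2 ^ n) < 2 (k + 1) ^ (2 t)`; a DLA of size `2 ^ ((size + 2) ^ 4)` exists
if the time is not bounded (starting files), so it must be slow on some inputs.

Proof of the lower bounds. Suppose that there are words `x_S`, `y_T` for the subsets `S`, `T` of a set `V`
and arbitrarily long words `p` such that `x_S p y_T` is in the language if and only if `S` and `T`
intersect. The word `w_S = x_S p y_{V \ S}` is rejected. For every boundary between two cells of
`p`, the crossing sequences of the computations on the words `w_S` are different for different `S`: if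
they are equal for `S` and `S'` then by cut and paste `x_S p y_{V \ S'}` and `x_{S'} p y_{V \ S}` are
rejected, but `S \ S'` or `S' \ S` is not empty. So if `2 (k + 1) ^ (2 t) ≤ 2 ^ |V|` then for at least half of the sets
`S` the crossing sequence has more than `2 t` terms, and the sum over all boundaries and all `S`
contradicts the bound of the running time. For the first lower bound `V` is the set of the `m × m` bit
matrices and the LA, with `O(m)` states over an alphabet with `7` letters, guesses a matrix of `S` and
one of `T`, given by a list of queries about the bits, and answers the queries one after the other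
(`x_S` is a list of matrices, `y_T` is a list of lists of queries, `p` is a list of contradictory
queries). For the second one `V` is the set of the words of `n` bits, and the LA of the result
FewTurns decides whether the composition of a sequence of relations on `V` is not empty.
-/

set_option autoImplicit false

namespace Pool.Agent.Results.MP_0036f5_lc.TimeSize

open Pool.Agent.H630R2.LA Pool.Agent.R620.KV Pool.Agent.NH19.LA Pool.Agent.NH88.FY

theorem result (strict : Prop) :
    (∀ t : ℕ, 2 ≤ t → ∀ n : ℕ,
      cost strict (DetTime strict t) n ≤ 2 ^ (2 ^ (n ^ 2 + 4)) ∧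
      (4160 ≤ n →
        2 ^ (2 ^ (n ^ 2 / 40000000)) < 2 * cost strict (DetTime strict t) n ^ (2 * t))) ∧
    ∀ n : ℕ, 1 ≤ n → ∃ (A : Type) (_ : Finite A) (M : LimAut A), Nat.card A = 4 * n + 2 ∧
      Nat.card M.Q = 3 * n + 4 ∧ M.size ≤ 300 * (n + 1) ^ 2 ∧
      (∀ (w : List A) (T : ℕ) (f : ℕ → Cfg M), IsComp strict M w T f →
        T ≤ (2 * n + 1) * (w.length + 3)) ∧
      (∃ M' : LimAut A, M'.Deterministic ∧ M'.language strict = M.language strict ∧
        M'.size ≤ 2 ^ ((M.size + 2) ^ 4)) ∧
      ∀ (M' : LimAut A) (t : ℕ), M'.Deterministic → LinTime strict M' t →
        M'.language strict = M.language strict →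
        2 ^ (2 ^ n) < 2 * (Nat.card M'.Q + 1) ^ (2 * t) := by
  refine ⟨fun t ht n => time_cost strict t ht n, fun n hn => ?_⟩
  obtain ⟨h1, _, h3, h4⟩ := size_Mn n
  refine ⟨Ltr n, inferInstance, Mn n, h3, h1, h4, time_Mn strict n, upper (Mn n) strict, ?_⟩
  rintro M' t hd ⟨N0, hN0⟩ hL
  exact NH19.LA.time_lower zip_iff mach strict n hn M' hd hL t N0 hN0

end Pool.Agent.Results.MP_0036f5_lc.TimeSize
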