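import Mathlib
import Pool.Agent.NH19.LA.MnVisits
import Pool.Agent.NH19.LA.Zip
import Pool.Agent.NH19.LA.Mach
import Pool.Agent.NH88.FY.Cost

/-!
# Unambiguous 1-limited automata with few visits

The cost of the simulation of 1-limited automata (LAs) by unambiguous LAs with at most `k` visits of
each cell is `2 ^ (2 ^ Θ(n ^ 2))`. Let `cost n` be the greatest value, for the LAs of size at most `n`,
of the least size of an equivalent unambiguous LA which has, for every word of the language, an
accepting computation with at most `k` visits of each cell, and `cost' n` the same value for
deterministic LAs, which are unambiguous. For every `k ≥ 1`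

* `cost n ≤ cost' n ≤ 2 ^ (2 ^ (n ^ 2 + 4))`: the subset construction for the one-way automaton whose
  states are the pairs (table of the visited part of the tape, state) visits each cell once;
* `2 ^ (2 ^ (n ^ 2 / 40000000)) ≤ cost n ^ (2 k) + 1` if `n ≥ 4160`.

Moreover for every `n ≥ 1` there is an LA with `3 n + 4` states over an alphabet with `4 n + 2` letters,
of size at most `300 (n + 1) ^ 2`, whose own computations visit each cell at most `2 n + 1` times, such
that every equivalent unambiguous LA with `s` states which visits each cell at most `k` times in its
accepting computations satisfies `2 ^ (2 ^ n) ≤ (s + 1) ^ (2 k) + 1`. Deterministic LAs are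
unambiguous, so this holds for them as well. So it is the ambiguity which makes the small automaton
possible: with few visits, even `2 ^ (n / 2)` of them for each cell, the cost of making an LA
unambiguous or deterministic is double exponential.

Proof of the lower bounds. Suppose that there are words `x_S`, `y_T` for the subsets `S`, `T` of a set `V`
such that `x_S y_T` is in the language if and only if `S` and `T` intersect. The crossing sequence of
the accepting computation at the boundary between the two words is unique, and by cut and paste of
accepting computations the words `x_S y_T` with a given crossing sequence form a rectangle. So the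
matrix with the entries `[S ∩ T ≠ ∅]` is a sum of at most `(s + 1) ^ (2 k)` matrices of rank one,
but its rank is at least `2 ^ |V| - 1`. For the first lower bound `V` is the set of the `m × m` bit
matrices and the LA, with `O(m)` states over an alphabet with `7` letters, guesses a matrix of `S` and
one of `T`, given by a list of queries about the bits, and answers the queries one after the other. For
the second one `V` is the set of the words of `n` bits, and the LA of the result FewTurns decides
whether the composition of two relations is not empty.
-/

set_option autoImplicit false

namespace Pool.Agent.Results.MP_0036f5_lc.UnambiguousVisits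

open Pool.Agent.H630R2.LA Pool.Agent.R620.KV Pool.Agent.NH19.LA Pool.Agent.NH88.FY

theorem result (strict : Prop) :
    (∀ k : ℕ, 1 ≤ k → ∀ n : ℕ,
      cost strict (UnambFew strict k) n ≤ cost strict (DetFew strict k) n ∧
      cost strict (DetFew strict k) n ≤ 2 ^ (2 ^ (n ^ 2 + 4)) ∧
      (4160 ≤ n →
        2 ^ (2 ^ (n ^ 2 / 40000000)) ≤ cost strict (UnambFew strict k) n ^ (2 * k) + 1)) ∧
    ∀ n : ℕ, 1 ≤ n → ∃ (A : Type) (_ : Finite A) (M : LimAut A), Nat.card A = 4 * n + 2 ∧
      Nat.card M.Q = 3 * n + 4 ∧ M.size ≤ 300 * (n + 1) ^ 2 ∧
      (∀ (w : List A) (T : ℕ) (f : ℕ → Cfg M), IsComp strict M w T f → ∀ i,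
        {t | t < T ∧ (f t).pos = i}.ncard ≤ 2 * n + 1) ∧
      ∀ (M' : LimAut A) (k : ℕ), (Unambiguous strict M' ∨ M'.Deterministic) →
        FewVisits strict k M' → M'.language strict = M.language strict →
        2 ^ (2 ^ n) ≤ (Nat.card M'.Q + 1) ^ (2 * k) + 1 := by
  refine ⟨fun k hk n => visits_costs strict k hk n, fun n hn => ?_⟩
  obtain ⟨h1, _, h3, h4⟩ := size_Mn n
  refine ⟨Ltr n, inferInstance, Mn n, h3, h1, h4, visits_Mn strict n, ?_⟩
  intro M' k hu hv hL
  exact NH19.LA.unamb_lower zip_iff mach strict n hn M' (hu.elim id (unamb_of_det strict M')) hL k hv

end Pool.Agent.Results.MP_0036f5_lc.UnambiguousVisits
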